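import Pool.Agent.Helper91.GP2.Defs

/-!
# Board GP2, package I1: conjugates of `JM`
-/

open CategoryTheory MonoidalCategory Limits BraidedCategory

namespace Pool.Agent.Helper91.GP

open Pool.Agent.TH90.AB Pool.Agent.TH90.Kim Pool.Agent.Helper96.Kim Pool.Agent.Helper96.SP

namespace QI1X

theorem gv_apply {n D : ℕ} (g : Equiv.Perm (Fin n)) (f : (Fin n → Fin (D + 1)) → ℚ)
    (w : Fin n → Fin (D + 1)) : gv g f w = ep g w * f (w ∘ g) := rfl

theorem gv_mul {n D : ℕ} (g h : Equiv.Perm (Fin n)) (f : (Fin n → Fin (D + 1)) → ℚ) :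
    gv (g * h) f = gv g (gv h f) := by
  funext w
  change ep (g * h) w * f (w ∘ (g * h : Equiv.Perm (Fin n))) =
    ep g w * (ep h (w ∘ g) * f ((w ∘ g) ∘ h))
  rw [ep_mul, mul_assoc]
  rfl

theorem actS_single' {n D : ℕ} (g : Equiv.Perm (Fin n)) (f : (Fin n → Fin (D + 1)) → ℚ) :
    actS D n (MonoidAlgebra.single g 1) f = gv g f := by
  funext w
  rw [actS_single, one_mul, gv_apply]

theorem jm_apply {n D : ℕ} (c : ℚ) (f : (Fin (n + 1) → Fin (D + 1)) → ℚ) :
    actS D (n + 1) (JM n + algebraMap ℚ _ c) f =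
      ∑ i ∈ Finset.univ.erase (0 : Fin (n + 1)), gv (Equiv.swap 0 i) f + c • f := by
  have h1 : actS D (n + 1) (JM n) f = ∑ i : Fin n, gv (Equiv.swap 0 i.succ) f := by
    rw [JM, map_sum, LinearMap.sum_apply]
    exact Finset.sum_congr rfl fun i _ => actS_single' _ _
  have h2 : (∑ i : Fin n, gv (Equiv.swap 0 i.succ) f) =
      ∑ i ∈ Finset.univ.erase (0 : Fin (n + 1)), gv (Equiv.swap 0 i) f := by
    have h3 := Fin.sum_univ_succ fun i : Fin (n + 1) => gv (Equiv.swap 0 i) f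
    have h4 := Finset.add_sum_erase Finset.univ (fun i : Fin (n + 1) => gv (Equiv.swap 0 i) f)
      (Finset.mem_univ 0)
    exact (add_left_cancel (h4.trans h3)).symm
  rw [map_add, LinearMap.add_apply, h1, h2, AlgHom.commutes]
  rfl

end QI1X

theorem fin2_good {d n : ℕ} (v : (Fin (n + 1) → Fin (d + 2)) → ℚ)
    (h : ∀ g : Equiv.Perm (Fin (n + 1)), actS (d + 1) (n + 1) (JM n + algebraMap ℚ _ (d : ℚ))
      (gv g v) = 0) (g : Equiv.Perm (Fin (n + 1))) (j : Fin (n + 1)) (w : Fin (n + 1) → Fin (d + 2)) :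
    ∑ i ∈ Finset.univ.erase j, gv (Equiv.swap j i) (gv g v) w + d * gv g v w = 0 := by
  set s : Equiv.Perm (Fin (n + 1)) := Equiv.swap 0 j with hs
  have hss : s * s = 1 := Equiv.swap_mul_self _ _
  have hs0 : s 0 = j := Equiv.swap_apply_left _ _
  have h1 : ∑ i ∈ Finset.univ.erase (0 : Fin (n + 1)), gv (Equiv.swap 0 i) (gv (s * g) v) +
      (d : ℚ) • gv (s * g) v = 0 := by
    rw [← QI1X.jm_apply]
    exact h _
  have h2 : ∑ i ∈ Finset.univ.erase j, gv (Equiv.swap j i) (gv g v) =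
      ∑ i ∈ Finset.univ.erase (0 : Fin (n + 1)), gv s (gv (Equiv.swap 0 i) (gv (s * g) v)) := by
    symm
    refine Finset.sum_equiv s (fun i => ?_) fun i _ => ?_
    · simp only [Finset.mem_erase, Finset.mem_univ, and_true]
      rw [← hs0, not_iff_not]
      exact s.injective.eq_iff.symm
    · rw [← QI1X.gv_mul, ← QI1X.gv_mul, ← QI1X.gv_mul]
      congr 1
      rw [← mul_assoc, Equiv.mul_swap_eq_swap_mul s 0 i, hs0, mul_assoc (Equiv.swap j (s i)) s s, hss,
        mul_one]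
  have h3 : ∑ i ∈ Finset.univ.erase j, gv (Equiv.swap j i) (gv g v) + (d : ℚ) • gv g v = 0 := by
    have h4 := congrArg (gv s) h1
    rw [map_add, map_sum, map_smul, map_zero, ← h2, ← QI1X.gv_mul, ← mul_assoc, hss, one_mul] at h4
    exact h4
  have h5 := congrFun h3 w
  rw [Pi.add_apply, Finset.sum_apply] at h5
  exact h5

end Pool.Agent.Helper91.GP
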