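import Pool.Agent.Helper91.GP2.Defs

/-!
# Board GP2, package I2: words with odd letters
-/

set_option autoImplicit false

namespace Pool.Agent.Helper91.GP

namespace QI2X

theorem gv_gv {n D : ℕ} (g h : Equiv.Perm (Fin n)) (v : (Fin n → Fin (D + 1)) → ℚ) :
    gv g (gv h v) = gv (g * h) v := by
  funext w
  change ep g w * (ep h (w ∘ g) * v ((w ∘ g) ∘ h)) = ep (g * h) w * v (w ∘ (g * h : Equiv.Perm _))
  rw [ep_mul, mul_assoc]
  rfl

theorem gv_one' {n D : ℕ} (v : (Fin n → Fin (D + 1)) → ℚ) : gv 1 v = v := by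
  funext w
  change ep 1 w * v (w ∘ (1 : Equiv.Perm (Fin n))) = v w
  rw [ep_one, one_mul]
  rfl

theorem swap_id {n : ℕ} {i i' j : Fin n} (h1 : i ≠ i') (h2 : i ≠ j) (h3 : i' ≠ j) :
    Equiv.swap j i' * Equiv.swap j i = Equiv.swap i i' * Equiv.swap j i' := by
  ext a
  simp only [Equiv.Perm.mul_apply]
  congr 1
  by_cases ha : a = i
  · subst ha
    rw [Equiv.swap_apply_right, Equiv.swap_apply_left, Equiv.swap_apply_of_ne_of_ne h2 h1,
      Equiv.swap_apply_left]
  · by_cases hb : a = i'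
    · subst hb
      rw [Equiv.swap_apply_of_ne_of_ne h3 h1.symm, Equiv.swap_apply_right,
        Equiv.swap_apply_of_ne_of_ne h2.symm h3.symm]
    · by_cases hc : a = j
      · subst hc
        rw [Equiv.swap_apply_left, Equiv.swap_apply_left, Equiv.swap_apply_of_ne_of_ne h2 h1,
          Equiv.swap_apply_right]
      · rw [Equiv.swap_apply_of_ne_of_ne hc ha, Equiv.swap_apply_of_ne_of_ne hc hb,
          Equiv.swap_apply_of_ne_of_ne ha hb]

/-- two odd positions -/
theorem gv_odd (ep_odd : ∀ {n D : ℕ} (i j : Fin n), i ≠ j → ∀ (w : Fin n → Fin (D + 1)),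
      w i = Fin.last D → w j = Fin.last D → ep (Equiv.swap i j) w = -1)
    {n D : ℕ} (i j : Fin n) (hij : i ≠ j) (v : (Fin n → Fin (D + 1)) → ℚ)
    (w : Fin n → Fin (D + 1)) (hi : w i = Fin.last D) (hj : w j = Fin.last D) :
    gv (Equiv.swap i j) v w = - v w := by
  have h1 : w ∘ (Equiv.swap i j) = w := by
    funext a
    rw [Function.comp_apply]
    by_cases hai : a = i
    · rw [hai, Equiv.swap_apply_left, hi, hj]
    · by_cases hak : a = j
      · rw [hak, Equiv.swap_apply_right, hi, hj]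
      · rw [Equiv.swap_apply_of_ne_of_ne hai hak]
  change ep (Equiv.swap i j) w * v (w ∘ (Equiv.swap i j)) = - v w
  rw [h1, ep_odd i j hij w hi hj]
  ring

end QI2X

open QI2X in
theorem fin2_psi_of
    (ep_even : ∀ {n D : ℕ} (i j : Fin n) (w : Fin n → Fin (D + 1)), w i ≠ Fin.last D →
      w j ≠ Fin.last D → ep (Equiv.swap i j) w = 1)
    (ep_odd : ∀ {n D : ℕ} (i j : Fin n), i ≠ j → ∀ (w : Fin n → Fin (D + 1)),
      w i = Fin.last D → w j = Fin.last D → ep (Equiv.swap i j) w = -1)
    (ker_gen : ∀ {E : Type} [Fintype E] [DecidableEq E] (D : ℕ) (j : E) (Ψ : (E → Fin D) → ℚ),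
      (∀ w, ∑ i ∈ Finset.univ.erase j, Ψ (w ∘ Equiv.swap j i) = - (D : ℚ) * Ψ w) → Ψ = 0)
    {d n : ℕ} (v : (Fin n → Fin (d + 2)) → ℚ)
    (h : ∀ (g : Equiv.Perm (Fin n)) (j : Fin n) (w : Fin n → Fin (d + 2)),
      ∑ i ∈ Finset.univ.erase j, gv (Equiv.swap j i) (gv g v) w + d * gv g v w = 0)
    (j : Fin n) (w : Fin n → Fin (d + 2)) (hj : w j ≠ Fin.last (d + 1)) :
    ∑ i ∈ Finset.univ.filter (fun i => w i = Fin.last (d + 1)),
      (gv (Equiv.swap j i) v w + v w) = 0 := by
  classical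
  -- the set of the odd positions
  set S : Finset (Fin n) := Finset.univ.filter (fun i => w i = Fin.last (d + 1)) with hS
  have hjS : j ∉ S := by
    rw [hS, Finset.mem_filter]
    exact fun h' => hj h'.2
  -- the main computation at words with the odd positions S
  have key : ∀ w' : Fin n → Fin (d + 2), (∀ i, w' i = Fin.last (d + 1) ↔ i ∈ S) →
      ∑ k ∈ (Finset.univ.erase j) \ S, ∑ i ∈ S,
        (gv (Equiv.swap j i) v (w' ∘ Equiv.swap j k) + v (w' ∘ Equiv.swap j k)) =
      - ((d : ℚ) + 1) * ∑ i ∈ S, (gv (Equiv.swap j i) v w' + v w') := by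
    intro w' hw'
    have hjw : w' j ≠ Fin.last (d + 1) := fun h' => hjS ((hw' j).1 h')
    have hsub : S ⊆ Finset.univ.erase j := by
      intro i hi
      rw [Finset.mem_erase]
      exact ⟨fun h' => hjS (h' ▸ hi), Finset.mem_univ _⟩
    have hev : ∀ k ∈ (Finset.univ.erase j) \ S, ∀ u : (Fin n → Fin (d + 2)) → ℚ,
        u (w' ∘ Equiv.swap j k) = gv (Equiv.swap j k) u w' := by
      intro k hk u
      have hk' : w' k ≠ Fin.last (d + 1) := fun h' => (Finset.mem_sdiff.1 hk).2 ((hw' k).1 h')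
      change _ = ep (Equiv.swap j k) w' * u (w' ∘ Equiv.swap j k)
      rw [ep_even j k w' hjw hk', one_mul]
    -- sums over the even positions
    have hB : ∀ u : (Fin n → Fin (d + 2)) → ℚ,
        (∑ i ∈ Finset.univ.erase j, gv (Equiv.swap j i) u w' + d * u w' = 0) →
        ∑ k ∈ (Finset.univ.erase j) \ S, u (w' ∘ Equiv.swap j k) =
          - d * u w' - ∑ i ∈ S, gv (Equiv.swap j i) u w' := by
      intro u hu
      rw [Finset.sum_congr rfl fun k hk => hev k hk u]
      have h1 := Finset.sum_sdiff (f := fun k => gv (Equiv.swap j k) u w') hsub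
      linarith
    have h1 := hB v (by
      have := h 1 j w'
      rwa [gv_one'] at this)
    have h2 : ∀ i ∈ S, ∑ k ∈ (Finset.univ.erase j) \ S,
        gv (Equiv.swap j i) v (w' ∘ Equiv.swap j k) =
          - d * gv (Equiv.swap j i) v w' -
            ∑ i' ∈ S, gv (Equiv.swap j i') (gv (Equiv.swap j i) v) w' := fun i _ =>
      hB (gv (Equiv.swap j i) v) (h (Equiv.swap j i) j w')
    -- the square of A
    have h3 : ∀ i ∈ S, ∀ i' ∈ S, gv (Equiv.swap j i') (gv (Equiv.swap j i) v) w' =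
        if i = i' then v w' else - gv (Equiv.swap j i') v w' := by
      intro i hi i' hi'
      have hij : i ≠ j := fun h' => hjS (h' ▸ hi)
      have hij' : i' ≠ j := fun h' => hjS (h' ▸ hi')
      split_ifs with hii
      · subst hii
        rw [gv_gv, Equiv.swap_mul_self, gv_one']
      · rw [gv_gv, swap_id hii hij hij', ← gv_gv]
        exact gv_odd ep_odd i i' hii _ w' ((hw' i).2 hi) ((hw' i').2 hi')
    have h4 : ∑ i ∈ S, ∑ i' ∈ S, gv (Equiv.swap j i') (gv (Equiv.swap j i) v) w' =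
        (S.card : ℚ) * v w' - ((S.card : ℚ) - 1) * ∑ i ∈ S, gv (Equiv.swap j i) v w' := by
      rw [Finset.sum_congr rfl fun i hi => Finset.sum_congr rfl fun i' hi' => h3 i hi i' hi']
      rw [Finset.sum_comm]
      have h5 : ∀ i' ∈ S, ∑ i ∈ S, (if i = i' then v w' else - gv (Equiv.swap j i') v w') =
          v w' - ((S.card : ℚ) - 1) * gv (Equiv.swap j i') v w' := by
        intro i' hi'
        rw [← Finset.add_sum_erase S _ hi', if_pos rfl,
          Finset.sum_congr rfl fun i hi => if_neg (Finset.ne_of_mem_erase hi), Finset.sum_const,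
          Finset.card_erase_of_mem hi', nsmul_eq_mul]
        have h6 : 1 ≤ S.card := Finset.card_pos.2 ⟨i', hi'⟩
        rw [Nat.cast_sub h6]
        push_cast
        ring
      rw [Finset.sum_congr rfl h5, Finset.sum_sub_distrib, Finset.sum_const, nsmul_eq_mul,
        ← Finset.mul_sum]
    rw [Finset.sum_comm]
    have h7 : ∑ i ∈ S, ∑ k ∈ (Finset.univ.erase j) \ S,
        (gv (Equiv.swap j i) v (w' ∘ Equiv.swap j k) + v (w' ∘ Equiv.swap j k)) =
        ∑ i ∈ S, (- d * gv (Equiv.swap j i) v w' -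
            ∑ i' ∈ S, gv (Equiv.swap j i') (gv (Equiv.swap j i) v) w' +
            (- d * v w' - ∑ i ∈ S, gv (Equiv.swap j i) v w')) := by
      refine Finset.sum_congr rfl fun i hi => ?_
      rw [Finset.sum_add_distrib, h1, h2 i hi]
    rw [h7, Finset.sum_add_distrib, Finset.sum_sub_distrib, h4, ← Finset.mul_sum, Finset.sum_const,
      nsmul_eq_mul, Finset.sum_add_distrib, Finset.sum_const, nsmul_eq_mul]
    ring
  -- words from words on the even positions
  let W : ({i : Fin n // w i ≠ Fin.last (d + 1)} → Fin (d + 1)) → Fin n → Fin (d + 2) :=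
    fun u i => if hi : w i ≠ Fin.last (d + 1) then (u ⟨i, hi⟩).castSucc else Fin.last (d + 1)
  have hW : ∀ u i, W u i = Fin.last (d + 1) ↔ i ∈ S := by
    intro u i
    rw [hS, Finset.mem_filter]
    by_cases hi : w i = Fin.last (d + 1)
    · have : W u i = Fin.last (d + 1) := dif_neg (not_not.2 hi)
      exact ⟨fun _ => ⟨Finset.mem_univ _, hi⟩, fun _ => this⟩
    · have : W u i = (u ⟨i, hi⟩).castSucc := dif_pos hi
      rw [this]
      exact ⟨fun h' => absurd h' (Fin.castSucc_lt_last _).ne, fun h' => absurd h'.2 hi⟩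
  have hWs : ∀ u (k : {i : Fin n // w i ≠ Fin.last (d + 1)}),
      W (u ∘ Equiv.swap ⟨j, hj⟩ k) = W u ∘ Equiv.swap j k.1 := by
    intro u k
    funext a
    rw [Function.comp_apply]
    by_cases ha : w a = Fin.last (d + 1)
    · have h1 : W (u ∘ Equiv.swap ⟨j, hj⟩ k) a = Fin.last (d + 1) := dif_neg (not_not.2 ha)
      have haj : a ≠ j := fun h' => hj (h' ▸ ha)
      have hak : a ≠ k.1 := fun h' => k.2 (h' ▸ ha)
      rw [h1, Equiv.swap_apply_of_ne_of_ne haj hak]
      have h2 : W u a = Fin.last (d + 1) := dif_neg (not_not.2 ha)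
      exact h2.symm
    · have h1 : W (u ∘ Equiv.swap ⟨j, hj⟩ k) a = (u (Equiv.swap ⟨j, hj⟩ k ⟨a, ha⟩)).castSucc :=
        dif_pos ha
      rw [h1]
      have h2 : ∀ b : {i : Fin n // w i ≠ Fin.last (d + 1)}, W u b.1 = (u b).castSucc :=
        fun b => dif_pos b.2
      rw [← h2]
      congr 1
      by_cases haj : a = j
      · subst haj
        rw [Equiv.swap_apply_left, Equiv.swap_apply_left]
      · by_cases hak : a = k.1
        · have : (⟨a, ha⟩ : {i : Fin n // w i ≠ Fin.last (d + 1)}) = k := Subtype.ext hak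
          rw [this, Equiv.swap_apply_right, hak, Equiv.swap_apply_right]
        · rw [Equiv.swap_apply_of_ne_of_ne haj hak, Equiv.swap_apply_of_ne_of_ne]
          · exact fun h' => haj (congrArg Subtype.val h')
          · exact fun h' => hak (congrArg Subtype.val h')
  let Ψ : ({i : Fin n // w i ≠ Fin.last (d + 1)} → Fin (d + 1)) → ℚ := fun u =>
    ∑ i ∈ S, (gv (Equiv.swap j i) v (W u) + v (W u))
  have hΨ : Ψ = 0 := by
    apply ker_gen (d + 1) (⟨j, hj⟩ : {i : Fin n // w i ≠ Fin.last (d + 1)})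
    intro u
    have h1 := key (W u) (hW u)
    have h2 : ∑ i ∈ Finset.univ.erase (⟨j, hj⟩ : {i : Fin n // w i ≠ Fin.last (d + 1)}),
        Ψ (u ∘ Equiv.swap ⟨j, hj⟩ i) = ∑ k ∈ (Finset.univ.erase j) \ S, ∑ i ∈ S,
        (gv (Equiv.swap j i) v (W u ∘ Equiv.swap j k) + v (W u ∘ Equiv.swap j k)) := by
      refine Finset.sum_bij (fun k _ => k.1) ?_ ?_ ?_ ?_
      · intro k hk
        rw [Finset.mem_sdiff, Finset.mem_erase]
        refine ⟨⟨fun h' => Finset.ne_of_mem_erase hk (Subtype.ext h'), Finset.mem_univ _⟩, ?_⟩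
        rw [hS, Finset.mem_filter]
        exact fun h' => k.2 h'.2
      · intro a _ b _ hab
        exact Subtype.ext hab
      · intro k hk
        rw [Finset.mem_sdiff, Finset.mem_erase, hS, Finset.mem_filter] at hk
        have hk' : w k ≠ Fin.last (d + 1) := fun h' => hk.2 ⟨Finset.mem_univ _, h'⟩
        refine ⟨⟨k, hk'⟩, ?_, rfl⟩
        rw [Finset.mem_erase]
        exact ⟨fun h' => hk.1.1 (congrArg Subtype.val h'), Finset.mem_univ _⟩
      · intro k hk
        change ∑ i ∈ S, _ = _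
        rw [hWs]
    rw [h2, h1]
    push_cast
    rfl
  have h8 := congrFun hΨ fun i => (w i.1).castPred i.2
  have h9 : W (fun i => (w i.1).castPred i.2) = w := by
    funext i
    by_cases hi : w i = Fin.last (d + 1)
    · rw [hi]
      exact dif_neg (not_not.2 hi)
    · have : W (fun i => (w i.1).castPred i.2) i = ((w i).castPred hi).castSucc := dif_pos hi
      rw [this, Fin.castSucc_castPred]
  change ∑ i ∈ S, (gv (Equiv.swap j i) v (W (fun i => (w i.1).castPred i.2)) +
    v (W (fun i => (w i.1).castPred i.2))) = 0 at h8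
  rw [h9] at h8
  exact h8

end Pool.Agent.Helper91.GP
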