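import Pool.Agent.Helper91.GP2.Defs

/-!
# Board GP2, package I3: a sum of squares
-/

set_option autoImplicit false

namespace Pool.Agent.Helper91.GP

namespace QI3X

theorem ep_swap_symm {n D : ℕ} (i j : Fin n) (w : Fin n → Fin (D + 1))
    (hsq : ep (Equiv.swap i j) w * ep (Equiv.swap i j) w = 1) :
    ep (Equiv.swap i j) (w ∘ Equiv.swap i j) = ep (Equiv.swap i j) w := by
  have h1 := ep_mul (Equiv.swap i j) (Equiv.swap i j) w
  rw [Equiv.swap_mul_self, ep_one] at h1
  have h2 : ep (Equiv.swap i j) w ≠ 0 := by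
    intro h0
    rw [h0] at hsq
    norm_num at hsq
  apply mul_left_cancel₀ h2
  rw [← h1, hsq]

/-- exchange -/
def fl {n D : ℕ} (t : (Fin n → Fin (D + 1)) × Fin n × Fin n) :
    (Fin n → Fin (D + 1)) × Fin n × Fin n :=
  (t.1 ∘ Equiv.swap t.2.1 t.2.2, t.2.2, t.2.1)

theorem fl_fl {n D : ℕ} (t : (Fin n → Fin (D + 1)) × Fin n × Fin n) : fl (fl t) = t := by
  obtain ⟨w, i, j⟩ := t
  unfold fl
  refine Prod.ext ?_ rfl
  funext a
  change w (Equiv.swap i j (Equiv.swap j i a)) = w a
  rw [Equiv.swap_comm j i, Equiv.swap_apply_self]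

end QI3X

open QI3X in
theorem fin2_sq_of (ep_sq : ∀ {n D : ℕ} (g : Equiv.Perm (Fin n)) (w : Fin n → Fin (D + 1)),
      ep g w * ep g w = 1) {D n : ℕ} (v : (Fin n → Fin (D + 1)) → ℚ)
    (h : ∀ (j : Fin n) (w : Fin n → Fin (D + 1)), w j ≠ Fin.last D →
      ∑ i ∈ Finset.univ.filter (fun i => w i = Fin.last D),
        (gv (Equiv.swap j i) v w + v w) = 0)
    (i j : Fin n) (w : Fin n → Fin (D + 1)) (hj : w j ≠ Fin.last D) (hi : w i = Fin.last D) :
    gv (Equiv.swap j i) v w = - v w := by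
  classical
  let G : (Fin n → Fin (D + 1)) × Fin n × Fin n → ℚ := fun t =>
    if t.1 t.2.2 ≠ Fin.last D ∧ t.1 t.2.1 = Fin.last D then
      (gv (Equiv.swap t.2.2 t.2.1) v t.1 + v t.1) * v t.1 else 0
  have hG : ∑ t, G t = 0 := by
    rw [Fintype.sum_prod_type]
    refine Finset.sum_eq_zero fun w _ => ?_
    rw [Fintype.sum_prod_type_right]
    refine Finset.sum_eq_zero fun j _ => ?_
    by_cases hj : w j ≠ Fin.last D
    · have h1 := h j w hj
      have h2 : ∀ i, G (w, i, j) = if w i = Fin.last D then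
          (gv (Equiv.swap j i) v w + v w) * v w else 0 := by
        intro i
        change (if w j ≠ Fin.last D ∧ w i = Fin.last D then
          (gv (Equiv.swap j i) v w + v w) * v w else 0) = _
        simp only [hj, ne_eq, not_false_eq_true, true_and]
      rw [Finset.sum_congr rfl fun i _ => h2 i, ← Finset.sum_filter, ← Finset.sum_mul, h1, zero_mul]
    · refine Finset.sum_eq_zero fun i _ => ?_
      change (if w j ≠ Fin.last D ∧ w i = Fin.last D then
          (gv (Equiv.swap j i) v w + v w) * v w else 0) = _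
      rw [if_neg fun h => hj h.1]
  let φ : Equiv.Perm ((Fin n → Fin (D + 1)) × Fin n × Fin n) :=
    { toFun := fl, invFun := fl, left_inv := fl_fl, right_inv := fl_fl }
  have hG' : ∑ t, G (fl t) = 0 := by
    rw [← hG]
    exact Equiv.sum_comp φ G
  have hs : ∀ t, G t + G (fl t) = if t.1 t.2.2 ≠ Fin.last D ∧ t.1 t.2.1 = Fin.last D then
      (gv (Equiv.swap t.2.2 t.2.1) v t.1 + v t.1) ^ 2 else 0 := by
    rintro ⟨w, i, j⟩
    have h1 : G (fl (w, i, j)) = if w j ≠ Fin.last D ∧ w i = Fin.last D then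
        (gv (Equiv.swap i j) v (w ∘ Equiv.swap i j) + v (w ∘ Equiv.swap i j)) *
          v (w ∘ Equiv.swap i j) else 0 := by
      change (if (w ∘ Equiv.swap i j) i ≠ Fin.last D ∧ (w ∘ Equiv.swap i j) j = Fin.last D then
        (gv (Equiv.swap i j) v (w ∘ Equiv.swap i j) + v (w ∘ Equiv.swap i j)) *
          v (w ∘ Equiv.swap i j) else 0) = _
      rw [Function.comp_apply, Function.comp_apply, Equiv.swap_apply_left, Equiv.swap_apply_right]
    rw [h1]
    change (if w j ≠ Fin.last D ∧ w i = Fin.last D then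
          (gv (Equiv.swap j i) v w + v w) * v w else 0) + _ = if w j ≠ Fin.last D ∧
            w i = Fin.last D then (gv (Equiv.swap j i) v w + v w) ^ 2 else 0
    split_ifs with hc
    · have h2 : gv (Equiv.swap j i) v w = ep (Equiv.swap i j) w * v (w ∘ Equiv.swap i j) := by
        rw [Equiv.swap_comm]
        rfl
      have h3 : gv (Equiv.swap i j) v (w ∘ Equiv.swap i j) = ep (Equiv.swap i j) w * v w := by
        change ep (Equiv.swap i j) (w ∘ Equiv.swap i j) *
          v ((w ∘ Equiv.swap i j) ∘ Equiv.swap i j) = _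
        rw [ep_swap_symm i j w (ep_sq _ _)]
        congr 2
        funext a
        simp
      have h4 := ep_sq (Equiv.swap i j) w
      rw [h2, h3]
      linear_combination - (v (w ∘ Equiv.swap i j)) ^ 2 * h4
    · simp
  have hsum : ∑ t : (Fin n → Fin (D + 1)) × Fin n × Fin n,
      (if t.1 t.2.2 ≠ Fin.last D ∧ t.1 t.2.1 = Fin.last D then
      (gv (Equiv.swap t.2.2 t.2.1) v t.1 + v t.1) ^ 2 else 0) = 0 := by
    rw [← Finset.sum_congr rfl fun t _ => hs t, Finset.sum_add_distrib, hG, hG', add_zero]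
  rw [Finset.sum_eq_zero_iff_of_nonneg] at hsum
  · have h5 := hsum (w, i, j) (Finset.mem_univ _)
    rw [if_pos ⟨hj, hi⟩] at h5
    have h6 := pow_eq_zero_iff (two_ne_zero) |>.mp h5
    linarith
  · intro t _
    split_ifs
    · positivity
    · exact le_rfl

end Pool.Agent.Helper91.GP
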