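import Pool.Agent.Helper91.GP2.QI2

/-!
# Board GP2, package I5: words without odd letters
-/

set_option autoImplicit false

namespace Pool.Agent.Helper91.GP

open QI2X in
theorem fin2_even_of
    (ep_even : ∀ {n D : ℕ} (i j : Fin n) (w : Fin n → Fin (D + 1)), w i ≠ Fin.last D →
      w j ≠ Fin.last D → ep (Equiv.swap i j) w = 1)
    (ker_gen : ∀ {E : Type} [Fintype E] [DecidableEq E] (D : ℕ) (j : E) (Ψ : (E → Fin D) → ℚ),
      (∀ w, ∑ i ∈ Finset.univ.erase j, Ψ (w ∘ Equiv.swap j i) = - (D : ℚ) * Ψ w) → Ψ = 0)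
    {d n : ℕ} (v : (Fin n → Fin (d + 2)) → ℚ)
    (h : ∀ (g : Equiv.Perm (Fin n)) (j : Fin n) (w : Fin n → Fin (d + 2)),
      ∑ i ∈ Finset.univ.erase j, gv (Equiv.swap j i) (gv g v) w + d * gv g v w = 0)
    (j k : Fin n) (hjk : j ≠ k) (w : Fin n → Fin (d + 2)) (hw : ∀ i, w i ≠ Fin.last (d + 1)) :
    gv (Equiv.swap j k) v w = - v w := by
  classical
  have key : ∀ w' : Fin n → Fin (d + 2), (∀ i, w' i ≠ Fin.last (d + 1)) →
      ∑ i ∈ (Finset.univ.erase j).erase k,
        (v (w' ∘ Equiv.swap j i) + gv (Equiv.swap j k) v (w' ∘ Equiv.swap j i)) =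
      - ((d : ℚ) + 1) * (v w' + gv (Equiv.swap j k) v w') := by
    intro w' hw'
    have hkm : k ∈ Finset.univ.erase j := Finset.mem_erase.2 ⟨hjk.symm, Finset.mem_univ _⟩
    have hev : ∀ i, ∀ u : (Fin n → Fin (d + 2)) → ℚ,
        u (w' ∘ Equiv.swap j i) = gv (Equiv.swap j i) u w' := by
      intro i u
      change _ = ep (Equiv.swap j i) w' * u (w' ∘ Equiv.swap j i)
      rw [ep_even j i w' (hw' j) (hw' i), one_mul]
    have hB : ∀ u : (Fin n → Fin (d + 2)) → ℚ,
        (∑ i ∈ Finset.univ.erase j, gv (Equiv.swap j i) u w' + d * u w' = 0) →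
        ∑ i ∈ (Finset.univ.erase j).erase k, u (w' ∘ Equiv.swap j i) =
          - d * u w' - gv (Equiv.swap j k) u w' := by
      intro u hu
      rw [Finset.sum_congr rfl fun i _ => hev i u]
      have h1 := Finset.add_sum_erase (Finset.univ.erase j)
        (fun i => gv (Equiv.swap j i) u w') hkm
      linarith
    have h1 := hB v (by
      have := h 1 j w'
      rwa [gv_one'] at this)
    have h2 := hB (gv (Equiv.swap j k) v) (h (Equiv.swap j k) j w')
    rw [gv_gv, Equiv.swap_mul_self, gv_one'] at h2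
    rw [Finset.sum_add_distrib, h1, h2]
    ring
  let W : ({i : Fin n // i ≠ k} → Fin (d + 1)) → Fin n → Fin (d + 2) :=
    fun u i => if hi : i ≠ k then (u ⟨i, hi⟩).castSucc else w k
  have hW : ∀ u i, W u i ≠ Fin.last (d + 1) := by
    intro u i
    by_cases hi : i = k
    · have : W u i = w k := dif_neg (not_not.2 hi)
      rw [this]
      exact hw k
    · have : W u i = (u ⟨i, hi⟩).castSucc := dif_pos hi
      rw [this]
      exact (Fin.castSucc_lt_last _).ne
  have hWs : ∀ u (l : {i : Fin n // i ≠ k}),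
      W (u ∘ Equiv.swap ⟨j, hjk⟩ l) = W u ∘ Equiv.swap j l.1 := by
    intro u l
    funext a
    rw [Function.comp_apply]
    by_cases ha : a = k
    · have h1 : W (u ∘ Equiv.swap ⟨j, hjk⟩ l) a = w k := dif_neg (not_not.2 ha)
      have haj : a ≠ j := fun h' => hjk (h'.symm.trans ha)
      have hal : a ≠ l.1 := fun h' => l.2 (h'.symm.trans ha)
      rw [h1, Equiv.swap_apply_of_ne_of_ne haj hal]
      have h2 : W u a = w k := dif_neg (not_not.2 ha)
      exact h2.symm
    · have h1 : W (u ∘ Equiv.swap ⟨j, hjk⟩ l) a = (u (Equiv.swap ⟨j, hjk⟩ l ⟨a, ha⟩)).castSucc :=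
        dif_pos ha
      rw [h1]
      have h2 : ∀ b : {i : Fin n // i ≠ k}, W u b.1 = (u b).castSucc :=
        fun b => dif_pos b.2
      rw [← h2]
      congr 1
      by_cases haj : a = j
      · subst haj
        rw [Equiv.swap_apply_left, Equiv.swap_apply_left]
      · by_cases hal : a = l.1
        · have : (⟨a, ha⟩ : {i : Fin n // i ≠ k}) = l := Subtype.ext hal
          rw [this, Equiv.swap_apply_right, hal, Equiv.swap_apply_right]
        · rw [Equiv.swap_apply_of_ne_of_ne haj hal, Equiv.swap_apply_of_ne_of_ne]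
          · exact fun h' => haj (congrArg Subtype.val h')
          · exact fun h' => hal (congrArg Subtype.val h')
  let Ψ : ({i : Fin n // i ≠ k} → Fin (d + 1)) → ℚ := fun u =>
    v (W u) + gv (Equiv.swap j k) v (W u)
  have hΨ : Ψ = 0 := by
    apply ker_gen (d + 1) (⟨j, hjk⟩ : {i : Fin n // i ≠ k})
    intro u
    have h1 := key (W u) (hW u)
    have h2 : ∑ i ∈ Finset.univ.erase (⟨j, hjk⟩ : {i : Fin n // i ≠ k}),
        Ψ (u ∘ Equiv.swap ⟨j, hjk⟩ i) = ∑ i ∈ (Finset.univ.erase j).erase k,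
        (v (W u ∘ Equiv.swap j i) + gv (Equiv.swap j k) v (W u ∘ Equiv.swap j i)) := by
      refine Finset.sum_bij (fun l _ => l.1) ?_ ?_ ?_ ?_
      · intro l hl
        rw [Finset.mem_erase, Finset.mem_erase]
        exact ⟨l.2, fun h' => Finset.ne_of_mem_erase hl (Subtype.ext h'), Finset.mem_univ _⟩
      · intro a _ b _ hab
        exact Subtype.ext hab
      · intro l hl
        rw [Finset.mem_erase, Finset.mem_erase] at hl
        refine ⟨⟨l, hl.1⟩, ?_, rfl⟩
        rw [Finset.mem_erase]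
        exact ⟨fun h' => hl.2.1 (congrArg Subtype.val h'), Finset.mem_univ _⟩
      · intro l hl
        change v (W (u ∘ Equiv.swap ⟨j, hjk⟩ l)) + gv (Equiv.swap j k) v
          (W (u ∘ Equiv.swap ⟨j, hjk⟩ l)) = _
        rw [hWs]
    rw [h2, h1]
    push_cast
    rfl
  have h8 := congrFun hΨ fun i => (w i.1).castPred (hw i.1)
  have h9 : W (fun i => (w i.1).castPred (hw i.1)) = w := by
    funext i
    by_cases hi : i = k
    · rw [hi]
      exact dif_neg (not_not.2 rfl)
    · have : W (fun i => (w i.1).castPred (hw i.1)) i = ((w i).castPred (hw i)).castSucc :=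
        dif_pos hi
      rw [this, Fin.castSucc_castPred]
  change v (W (fun i => (w i.1).castPred (hw i.1))) + gv (Equiv.swap j k) v
    (W (fun i => (w i.1).castPred (hw i.1))) = 0 at h8
  rw [h9] at h8
  linarith

end Pool.Agent.Helper91.GP
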