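import Pool.Agent.Helper91.GP2.Defs

/-!
# `JM + D` is injective on words in `D` letters
-/

open CategoryTheory MonoidalCategory Limits BraidedCategory

namespace Pool.Agent.Helper91.GP

open Pool.Agent.TH90.AB Pool.Agent.TH90.Kim Pool.Agent.Helper96.Kim Pool.Agent.Helper96.SP

theorem ker_vec (D n : ℕ) (Ψ : (Fin (n + 1) → Fin D) → ℚ)
    (h : act D (n + 1) (JM n + algebraMap ℚ _ (D : ℚ)) Ψ = 0) : Ψ = 0 := by
  obtain ⟨k, q, h1, _, h3⟩ := ker_decomp D n
  have h4 : act D (n + 1) (adj k) = 0 := by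
    refine tau_faithful D (n + 1) _ ?_
    rw [adj_adj]
    unfold tau
    rw [map_mul, h3, zero_mul, _root_.map_zero]
  have h5 : (1 : QS (n + 1)) = adj k + adj q * (JM n + algebraMap ℚ _ (D : ℚ)) := by
    have h0 := congrArg adj h1
    rw [adj_add, adj_mul, adj_JM, MonoidAlgebra.one_def, adj_single, inv_one] at h0
    exact h0
  have h6 : act D (n + 1) 1 Ψ = 0 := by
    rw [h5, map_add, map_mul, h4, zero_add, Module.End.mul_apply, h, _root_.map_zero]
  rwa [map_one, Module.End.one_apply] at h6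

theorem ker_gen {E : Type} [Fintype E] [DecidableEq E] (D : ℕ) (j : E) (Ψ : (E → Fin D) → ℚ)
    (h : ∀ w, ∑ i ∈ Finset.univ.erase j, Ψ (w ∘ Equiv.swap j i) = - (D : ℚ) * Ψ w) : Ψ = 0 := by
  obtain ⟨n, hn⟩ : ∃ n, Fintype.card E = n + 1 :=
    ⟨Fintype.card E - 1, by have := Fintype.card_pos_iff.2 ⟨j⟩; omega⟩
  let ψ : E ≃ Fin (n + 1) := Fintype.equivFinOfCardEq hn
  let φ : E ≃ Fin (n + 1) := ψ.trans (Equiv.swap (ψ j) 0)
  have hφ : φ j = 0 := Equiv.swap_apply_left _ _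
  have hφ' : φ.symm 0 = j := by rw [← hφ, Equiv.symm_apply_apply]
  have h1 : (fun u : Fin (n + 1) → Fin D => Ψ (u ∘ φ)) = 0 := by
    refine ker_vec D n _ ?_
    funext u
    have h2 : ∀ i : Fin n, (u ∘ (Equiv.swap (0 : Fin (n + 1)) i.succ : Equiv.Perm _)) ∘ φ =
        (u ∘ φ) ∘ Equiv.swap j (φ.symm i.succ) := by
      intro i
      funext e
      simp only [Function.comp_apply]
      congr 1
      rw [φ.injective.map_swap, hφ, Equiv.apply_symm_apply]
    have h3 : ∀ f : E → ℚ, ∑ i : Fin n, f (φ.symm i.succ) = ∑ i ∈ Finset.univ.erase j, f i := by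
      intro f
      have h4 := Equiv.sum_comp φ.symm f
      rw [Fin.sum_univ_succ, hφ', ← Finset.add_sum_erase _ _ (Finset.mem_univ j)] at h4
      exact add_left_cancel h4
    have h5 := h (u ∘ φ)
    rw [← h3 fun i => Ψ ((u ∘ φ) ∘ Equiv.swap j i)] at h5
    rw [map_add, LinearMap.add_apply, Pi.add_apply, Pi.zero_apply]
    unfold JM
    rw [map_sum, LinearMap.sum_apply, Finset.sum_apply]
    rw [Finset.sum_congr rfl fun i _ => act_single D (n + 1) (Equiv.swap 0 i.succ) 1 _ u]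
    simp only [one_mul, h2]
    rw [h5]
    rw [AlgHom.commutes, Module.algebraMap_end_apply, Pi.smul_apply, smul_eq_mul]
    ring
  funext w
  have h7 : Ψ ((w ∘ φ.symm) ∘ φ) = 0 := congrFun h1 (w ∘ φ.symm)
  have h8 : (w ∘ φ.symm) ∘ φ = w := by
    funext e
    simp
  rw [h8] at h7
  exact h7

end Pool.Agent.Helper91.GP
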