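import Pool.Agent.Helper91.GP2.Defs

/-!
# Board GP2: the conditional expectation of `x^* x`, signed action
-/

open CategoryTheory MonoidalCategory Limits BraidedCategory

universe u v w

namespace Pool.Agent.Helper91.GP

open Pool.Agent.TH90.AB Pool.Agent.TH90.Kim Pool.Agent.Helper96.Kim Pool.Agent.Helper96.SP

set_option linter.unusedSectionVars false

namespace QOME2X

lemma tauS_sum {ι : Type} (s : Finset ι) (D n : ℕ) (z : ι → QS n) :
    tauS D n (∑ i ∈ s, z i) = ∑ i ∈ s, tauS D n (z i) := by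
  unfold tauS
  rw [map_sum, map_sum]

end QOME2X

/-- Package OME2. -/
theorem omeS_of (hnn : ∀ (D n : ℕ) (x : QS n), 0 ≤ tauS D n (adj x * x))
    (hf : ∀ (D n : ℕ) (x : QS n), tauS D n (adj x * x) = 0 → actS D n x = 0)
    (hup : ∀ (D n : ℕ) (x : QS n), actS D n x = 0 → actS D (n + 1) (upA n x) = 0)
    (D n : ℕ) (x : QS (n + 1)) (h : tauS D n (cE n (adj x * x)) = 0) :
    actS D (n + 1) x = 0 := by
  rw [OME.cE_adj_mul, QOME2X.tauS_sum,
    Finset.sum_eq_zero_iff_of_nonneg fun p _ => hnn D n _] at h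
  rw [OME.cp_sum x, map_sum]
  refine Finset.sum_eq_zero fun p hp => ?_
  rw [map_mul, hup D n _ (hf D n _ (h p hp)), mul_zero]

end Pool.Agent.Helper91.GP
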