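import Pool.Agent.Helper91.GP2.Defs

/-!
# Board GP2, package STAR2: the adjoint and positivity on signed words
-/

set_option autoImplicit false

open CategoryTheory MonoidalCategory Limits BraidedCategory

namespace Pool.Agent.Helper91.GP

open Pool.Agent.TH90.AB Pool.Agent.TH90.Kim Pool.Agent.Helper96.Kim Pool.Agent.Helper96.SP

/-- the matrix of the signed action -/
noncomputable def mtS (D n : ℕ) (x : QS n) :
    Matrix (Fin n → Fin (D + 1)) (Fin n → Fin (D + 1)) ℚ :=
  LinearMap.toMatrix' (actS D n x)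

theorem mtS_adj (ep_sq : ∀ {n D : ℕ} (g : Equiv.Perm (Fin n)) (w : Fin n → Fin (D + 1)),
      ep g w * ep g w = 1) (D n : ℕ) (x : QS n) : mtS D n (adj x) = (mtS D n x).transpose := by
  induction x using MonoidAlgebra.induction_linear with
  | zero => rw [adj_zero]; simp [mtS]
  | add a b ha hb =>
    unfold mtS at *
    rw [adj_add, map_add, map_add, map_add, map_add, ha, hb, Matrix.transpose_add]
  | single g a =>
    rw [adj_single]
    ext w v
    rw [Matrix.transpose_apply]
    unfold mtS
    rw [LinearMap.toMatrix'_apply, LinearMap.toMatrix'_apply, actS_single, actS_single]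
    congr 1
    rw [Pi.single_apply, Pi.single_apply]
    by_cases hc : v ∘ ⇑g = w
    · have hc' : w ∘ ⇑g⁻¹ = v := by
        rw [← hc]
        ext i
        simp
      rw [if_pos hc', if_pos hc, mul_one, mul_one]
      have h1 := ep_mul g g⁻¹ v
      rw [mul_inv_cancel, ep_one, hc] at h1
      have h2 := ep_sq g v
      have h3 : ep g v ≠ 0 := by
        intro h0
        rw [h0] at h2
        norm_num at h2
      apply mul_left_cancel₀ h3
      rw [← h1, h2]
    · have hc' : ¬ w ∘ ⇑g⁻¹ = v := by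
        intro h
        apply hc
        rw [← h]
        ext i
        simp
      rw [if_neg hc', if_neg hc, mul_zero, mul_zero]

theorem tauS_eq (D n : ℕ) (x : QS n) : tauS D n x = (mtS D n x).trace := by
  unfold tauS mtS
  rw [LinearMap.trace_eq_matrix_trace ℚ (Pi.basisFun ℚ (Fin n → Fin (D + 1))),
    LinearMap.toMatrix_eq_toMatrix']

theorem tauS_sqq (ep_sq : ∀ {n D : ℕ} (g : Equiv.Perm (Fin n)) (w : Fin n → Fin (D + 1)),
      ep g w * ep g w = 1) (D n : ℕ) (x : QS n) :
    tauS D n (adj x * x) = ∑ w, ∑ v, mtS D n x v w * mtS D n x v w := by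
  rw [tauS_eq]
  have h : mtS D n (adj x * x) = (mtS D n x).transpose * mtS D n x := by
    rw [← mtS_adj ep_sq]
    unfold mtS
    rw [map_mul, Module.End.mul_eq_comp, LinearMap.toMatrix'_comp]
  rw [h]
  rfl

theorem tauS_nonneg_of (ep_sq : ∀ {n D : ℕ} (g : Equiv.Perm (Fin n)) (w : Fin n → Fin (D + 1)),
      ep g w * ep g w = 1) (D n : ℕ) (x : QS n) : 0 ≤ tauS D n (adj x * x) := by
  rw [tauS_sqq ep_sq]
  exact Finset.sum_nonneg fun w _ => Finset.sum_nonneg fun v _ => mul_self_nonneg _

theorem tauS_faithful_of (ep_sq : ∀ {n D : ℕ} (g : Equiv.Perm (Fin n)) (w : Fin n → Fin (D + 1)),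
      ep g w * ep g w = 1) (D n : ℕ) (x : QS n) (h : tauS D n (adj x * x) = 0) :
    actS D n x = 0 := by
  rw [tauS_sqq ep_sq] at h
  have h1 : mtS D n x = 0 := by
    ext v w
    have h2 := (Finset.sum_eq_zero_iff_of_nonneg
      (fun w _ => Finset.sum_nonneg fun v _ => mul_self_nonneg _)).1 h w (Finset.mem_univ _)
    have h3 := (Finset.sum_eq_zero_iff_of_nonneg (fun v _ => mul_self_nonneg _)).1 h2 v (Finset.mem_univ _)
    exact mul_self_eq_zero.1 h3
  unfold mtS at h1
  exact (LinearMap.toMatrix').map_eq_zero_iff.1 h1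

theorem actS_adj_of (ep_sq : ∀ {n D : ℕ} (g : Equiv.Perm (Fin n)) (w : Fin n → Fin (D + 1)),
      ep g w * ep g w = 1) (D n : ℕ) (x : QS n) (h : actS D n x = 0) :
    actS D n (adj x) = 0 := by
  have h5 := mtS_adj ep_sq D n x
  unfold mtS at h5
  rw [h, map_zero, Matrix.transpose_zero] at h5
  exact (LinearMap.toMatrix').map_eq_zero_iff.1 h5

end Pool.Agent.Helper91.GP
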