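import Pool.Agent.Helper91.GP2.Defs

/-!
# The embedding of the group algebras and the signed action
-/

open CategoryTheory MonoidalCategory Limits BraidedCategory

namespace Pool.Agent.Helper91.GP

open Pool.Agent.TH90.AB Pool.Agent.TH90.Kim Pool.Agent.Helper96.Kim Pool.Agent.Helper96.SP

namespace QUP2X

lemma ep_via {n D : ℕ} (g : Equiv.Perm (Fin n)) (w : Fin (n + 1) → Fin (D + 1)) :
    ep (Equiv.Perm.viaEmbeddingHom (Fin.addNatEmb 1) g) w = ep g (Fin.tail w) := by
  unfold ep
  rw [Fintype.prod_prod_type, Fintype.prod_prod_type, Fin.prod_univ_succ]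
  have h0 : (∏ b : Fin (n + 1), (if (0 : Fin (n + 1)) < b ∧
      w (Equiv.Perm.viaEmbeddingHom (Fin.addNatEmb 1) g 0) = Fin.last D ∧
      w (Equiv.Perm.viaEmbeddingHom (Fin.addNatEmb 1) g b) = Fin.last D ∧
      Equiv.Perm.viaEmbeddingHom (Fin.addNatEmb 1) g b <
        Equiv.Perm.viaEmbeddingHom (Fin.addNatEmb 1) g 0 then (-1 : ℚ) else 1)) = 1 := by
    refine Finset.prod_eq_one fun b _ => ?_
    rw [if_neg]
    rintro ⟨_, _, _, h⟩
    rw [KER.via_zero] at h
    exact absurd h (Fin.not_lt_zero _)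
  dsimp only
  rw [h0, one_mul]
  refine Finset.prod_congr rfl fun a _ => ?_
  rw [Fin.prod_univ_succ]
  rw [if_neg (fun h => absurd h.1 (Fin.not_lt_zero _)), one_mul]
  refine Finset.prod_congr rfl fun b _ => ?_
  rw [KER.via_succ, KER.via_succ]
  refine if_congr ?_ rfl rfl
  rw [Fin.succ_lt_succ_iff, Fin.succ_lt_succ_iff]
  rfl

lemma actS_upA (D n : ℕ) (x : QS n) (f : (Fin (n + 1) → Fin (D + 1)) → ℚ)
    (w : Fin (n + 1) → Fin (D + 1)) :
    actS D (n + 1) (upA n x) f w =
      actS D n x (fun v => f (Fin.cons (w 0) v)) (Fin.tail w) := by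
  induction x using MonoidAlgebra.induction_linear with
  | zero => simp
  | add x y hx hy =>
    rw [map_add, map_add, map_add, LinearMap.add_apply, LinearMap.add_apply, Pi.add_apply,
      Pi.add_apply, hx, hy]
  | single g a =>
    have h1 : upA n (MonoidAlgebra.single g a) =
        MonoidAlgebra.single (Equiv.Perm.viaEmbeddingHom (Fin.addNatEmb 1) g) a := by
      unfold upA emb
      exact MonoidAlgebra.mapDomain_single
    rw [h1, actS_single, actS_single, ep_via]
    congr 3
    funext i
    refine Fin.cases ?_ (fun i => ?_) i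
    · rw [Fin.cons_zero, Function.comp_apply, KER.via_zero]
    · rw [Fin.cons_succ, Function.comp_apply, Function.comp_apply, KER.via_succ]
      rfl

end QUP2X

theorem up_actS (D n : ℕ) (x : QS n) (h : actS D n x = 0) : actS D (n + 1) (upA n x) = 0 := by
  refine LinearMap.ext fun f => ?_
  funext w
  rw [QUP2X.actS_upA, h]
  rfl

end Pool.Agent.Helper91.GP
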