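import Pool.Agent.Helper91.GP2.QEPV
import Pool.Agent.Helper91.GP2.QI1
import Pool.Agent.Helper91.GP2.QI2
import Pool.Agent.Helper91.GP2.QI3
import Pool.Agent.Helper91.GP2.QI5
import Pool.Agent.Helper91.GP2.QKERG
import Pool.Agent.Helper91.GP2.QUP2
import Pool.Agent.Helper91.GP2.QOME2
import Pool.Agent.Helper91.GP2.QSTAR2

/-!
# The ideals of a tensor category on words with an odd letter
-/

set_option autoImplicit false
open CategoryTheory MonoidalCategory Limits BraidedCategory

universe u v w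

namespace Pool.Agent.Helper91.GP

open Pool.Agent.TH90.AB Pool.Agent.TH90.Kim Pool.Agent.Helper96.Kim Pool.Agent.Helper96.SP

theorem gv_one {n D : ℕ} (v : (Fin n → Fin (D + 1)) → ℚ) : gv 1 v = v := by
  funext w
  change ep 1 w * v (w ∘ (1 : Equiv.Perm (Fin n))) = v w
  rw [ep_one, one_mul]
  rfl

theorem gv_eq (D n : ℕ) (g : Equiv.Perm (Fin n)) (v : (Fin n → Fin (D + 1)) → ℚ) :
    gv g v = actS D n (MonoidAlgebra.single g 1) v := by
  funext w
  rw [actS_single, one_mul]
  rfl

theorem fin_vec (d n : ℕ) (hn : d + 1 ≤ n + 1) (v : (Fin (n + 2) → Fin (d + 2)) → ℚ)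
    (h : ∀ g : Equiv.Perm (Fin (n + 2)), actS (d + 1) (n + 2)
      (JM (n + 1) + algebraMap ℚ _ (d : ℚ)) (gv g v) = 0) : v = 0 := by
  have hg := fin2_good v h
  funext w
  have key : ∀ j, (∀ i, i ≠ j → gv (Equiv.swap j i) v w = - v w) → v w = 0 := by
    intro j hj
    have h1 := hg 1 j w
    rw [gv_one, Finset.sum_congr rfl (fun i hi => hj i (Finset.ne_of_mem_erase hi)),
      Finset.sum_const, Finset.card_erase_of_mem (Finset.mem_univ j), Finset.card_univ,
      Fintype.card_fin, nsmul_eq_mul] at h1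
    have h2 : ((d : ℚ) - (n + 1)) * v w = 0 := by
      have h3 : ((n + 2 - 1 : ℕ) : ℚ) = n + 1 := by
        have : n + 2 - 1 = n + 1 := by omega
        rw [this]
        push_cast
        ring
      rw [h3] at h1
      linear_combination h1
    rcases mul_eq_zero.mp h2 with h4 | h4
    · exfalso
      have h5 : ((d : ℚ) + 1 ≤ n + 1) := by exact_mod_cast hn
      linarith
    · exact h4
  by_cases hw : ∃ i, w i = Fin.last (d + 1)
  · obtain ⟨i, hi⟩ := hw
    apply key i
    intro k hk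
    by_cases hk' : w k = Fin.last (d + 1)
    · have h1 : w ∘ (Equiv.swap i k) = w := by
        funext a
        rw [Function.comp_apply]
        by_cases hai : a = i
        · rw [hai, Equiv.swap_apply_left, hi, hk']
        · by_cases hak : a = k
          · rw [hak, Equiv.swap_apply_right, hi, hk']
          · rw [Equiv.swap_apply_of_ne_of_ne hai hak]
      change ep (Equiv.swap i k) w * v (w ∘ (Equiv.swap i k)) = - v w
      rw [h1, ep_odd i k (Ne.symm hk) w hi hk']
      ring
    · rw [Equiv.swap_comm]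
      exact fin2_sq_of ep_sq v (fun j w hj => fin2_psi_of ep_even ep_odd ker_gen v hg j w hj) i k w hk' hi
  · push Not at hw
    exact key 0 fun k hk => fin2_even_of ep_even ker_gen v hg 0 k (Ne.symm hk) w hw

theorem fin_stepS (d n : ℕ) (hn : d + 1 ≤ n + 1) (x : QS (n + 2))
    (h : ∀ g : Equiv.Perm (Fin (n + 2)), actS (d + 1) (n + 2)
      (x * MonoidAlgebra.single g 1 * (JM (n + 1) + algebraMap ℚ _ (d : ℚ))) = 0) :
    actS (d + 1) (n + 2) x = 0 := by
  have h1 : actS (d + 1) (n + 2) (adj x) = 0 := by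
    refine LinearMap.ext fun u => ?_
    apply fin_vec d n hn
    intro g
    have h3 : (JM (n + 1) + algebraMap ℚ _ (d : ℚ)) * (MonoidAlgebra.single g 1 * adj x) =
        adj (x * MonoidAlgebra.single g⁻¹ 1 * (JM (n + 1) + algebraMap ℚ _ (d : ℚ))) := by
      rw [adj_mul, adj_mul, adj_JM, adj_single, inv_inv]
    have h4 : actS (d + 1) (n + 2) ((JM (n + 1) + algebraMap ℚ _ (d : ℚ)) *
        (MonoidAlgebra.single g 1 * adj x)) = 0 := by
      rw [h3]
      exact actS_adj_of ep_sq _ _ _ (h g⁻¹)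
    rw [map_mul, map_mul] at h4
    rw [gv_eq]
    exact LinearMap.congr_fun h4 u
  have h2 := actS_adj_of ep_sq _ _ _ h1
  rwa [adj_adj] at h2

theorem coreS (d : ℕ) (I : ∀ n, Set (QS n))
    (hI : ∀ n, ∀ x ∈ I n, ∀ a b : QS n, a * x * b ∈ I n)
    (hc : ∀ n, ∀ x ∈ I (n + 1), cE n ((JM n + algebraMap ℚ _ (d : ℚ)) * x) ∈ I n)
    (h0 : ∀ n ≤ d + 1, ∀ x ∈ I n, x = 0) (n : ℕ) : ∀ x ∈ I n, actS (d + 1) n x = 0 := by
  induction n with
  | zero => intro x hx; rw [h0 0 (by omega) x hx, map_zero]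
  | succ n ih =>
    intro x hx
    by_cases hn : n + 1 ≤ d + 1
    · rw [h0 _ hn x hx, map_zero]
    · obtain ⟨m, rfl⟩ : ∃ m, n = m + 1 := ⟨n - 1, by omega⟩
      apply fin_stepS d m (by omega)
      intro g
      apply omeS_of (tauS_nonneg_of ep_sq) (tauS_faithful_of ep_sq) up_actS
      have hw : adj (x * MonoidAlgebra.single g 1 * (JM (m + 1) + algebraMap ℚ _ (d : ℚ))) *
          (x * MonoidAlgebra.single g 1 * (JM (m + 1) + algebraMap ℚ _ (d : ℚ))) =
          (JM (m + 1) + algebraMap ℚ _ (d : ℚ)) * (adj (x * MonoidAlgebra.single g 1) * x *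
            (MonoidAlgebra.single g 1 * (JM (m + 1) + algebraMap ℚ _ (d : ℚ)))) := by
        rw [adj_mul, adj_JM]
        simp only [mul_assoc]
      rw [hw, tauS, ih _ (hc _ _ (hI (m + 2) x hx _ _)), map_zero]

end Pool.Agent.Helper91.GP
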