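import Pool.Agent.Helper91.GP.QSTAR
import Pool.Agent.Helper91.GP.QKER
import Pool.Agent.Helper91.GP.QOME
import Mathlib.Data.Finset.Sym

/-!
# Words in `D` even letters and one odd letter
-/

open CategoryTheory MonoidalCategory Limits BraidedCategory

namespace Pool.Agent.Helper91.GP

open Pool.Agent.TH90.AB Pool.Agent.TH90.Kim Pool.Agent.Helper96.Kim Pool.Agent.Helper96.SP

noncomputable section

/-- The sign of `g` on the odd letters (the last letter is the odd one). -/
def ep {n D : ℕ} (g : Equiv.Perm (Fin n)) (w : Fin n → Fin (D + 1)) : ℚ :=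
  ∏ p : Fin n × Fin n, if p.1 < p.2 ∧ w (g p.1) = Fin.last D ∧ w (g p.2) = Fin.last D ∧
    g p.2 < g p.1 then -1 else 1

theorem ep_one {n D : ℕ} (w : Fin n → Fin (D + 1)) : ep 1 w = 1 := by
  unfold ep
  refine Finset.prod_eq_one fun p _ => if_neg ?_
  rintro ⟨h1, -, -, h2⟩
  simp only [Equiv.Perm.one_apply] at h2
  exact absurd h1 (not_lt.2 h2.le)

theorem prod_pairs {n : ℕ} (F : Fin n × Fin n → ℚ) (hF : ∀ a, F (a, a) = 1) :
    ∏ p, F p = ∏ p : Fin n × Fin n, (if p.1 < p.2 then F (p.1, p.2) * F (p.2, p.1) else 1) := by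
  have h1 : ∀ p : Fin n × Fin n, F p =
      (if p.1 < p.2 then F p else 1) * (if p.2 < p.1 then F p else 1) := by
    rintro ⟨a, b⟩
    rcases lt_trichotomy a b with h | h | h
    · simp [h, h.not_gt]
    · subst h; simp [hF]
    · simp [h, h.not_gt]
  have h2 : ∏ p : Fin n × Fin n, (if p.2 < p.1 then F p else 1) =
      ∏ p : Fin n × Fin n, (if p.1 < p.2 then F (p.2, p.1) else 1) :=
    Fintype.prod_equiv (Equiv.prodComm (Fin n) (Fin n)) _ _ fun p => rfl
  calc ∏ p, F p = ∏ p : Fin n × Fin n,
        ((if p.1 < p.2 then F p else 1) * (if p.2 < p.1 then F p else 1)) :=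
        Finset.prod_congr rfl fun p _ => h1 p
    _ = _ := by
      rw [Finset.prod_mul_distrib, h2, ← Finset.prod_mul_distrib]
      refine Finset.prod_congr rfl fun p _ => ?_
      by_cases h : p.1 < p.2
      · simp only [if_pos h]
      · simp only [if_neg h, one_mul]

theorem ep_mul {n D : ℕ} (g h : Equiv.Perm (Fin n)) (w : Fin n → Fin (D + 1)) :
    ep (g * h) w = ep g w * ep h (w ∘ g) := by
  let G : Fin n × Fin n → ℚ := fun p => if p.1 < p.2 ∧ w (g p.1) = Fin.last D ∧
    w (g p.2) = Fin.last D ∧ g p.2 < g p.1 then -1 else 1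
  have h1 : ep g w = ∏ p : Fin n × Fin n, G (h p.1, h p.2) := by
    unfold ep
    exact (Fintype.prod_equiv (Equiv.prodCongr h h) _ _ fun p => rfl).symm
  rw [h1, prod_pairs (fun p => G (h p.1, h p.2)) (fun a => if_neg fun h2 => lt_irrefl _ h2.1)]
  unfold ep
  rw [← Finset.prod_mul_distrib]
  refine Finset.prod_congr rfl ?_
  rintro ⟨a, b⟩ -
  simp only [Equiv.Perm.mul_apply, Function.comp_apply, G]
  by_cases hab : a < b
  · by_cases ha : w (g (h a)) = Fin.last D
    · by_cases hb : w (g (h b)) = Fin.last D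
      · have hne : h a ≠ h b := fun h2 => hab.ne (h.injective h2)
        have hne' : g (h a) ≠ g (h b) := fun h2 => hne (g.injective h2)
        rcases lt_or_gt_of_ne hne with h2 | h2
        · rcases lt_or_gt_of_ne hne' with h3 | h3
          · simp [hab, ha, hb, h2, h3, h2.not_gt, h3.not_gt]
          · simp [hab, ha, hb, h2, h3, h2.not_gt, h3.not_gt]
        · rcases lt_or_gt_of_ne hne' with h3 | h3
          · simp [hab, ha, hb, h2, h3, h2.not_gt, h3.not_gt]
          · simp [hab, ha, hb, h2, h3, h2.not_gt, h3.not_gt]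
      · simp [hb]
    · simp [ha]
  · simp [hab]

/-- The signed action of a permutation. -/
def gv {n D : ℕ} (g : Equiv.Perm (Fin n)) :
    ((Fin n → Fin (D + 1)) → ℚ) →ₗ[ℚ] ((Fin n → Fin (D + 1)) → ℚ) where
  toFun f := fun w => ep g w * f (w ∘ g)
  map_add' a b := by funext w; simp only [Pi.add_apply]; ring
  map_smul' c a := by funext w; simp only [Pi.smul_apply, smul_eq_mul, RingHom.id_apply]; ring

/-- The signed action on the functions of words of length `n` in `D` even letters and one odd. -/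
def actS (D n : ℕ) : QS n →ₐ[ℚ] Module.End ℚ ((Fin n → Fin (D + 1)) → ℚ) :=
  MonoidAlgebra.lift ℚ (Module.End ℚ ((Fin n → Fin (D + 1)) → ℚ)) (Equiv.Perm (Fin n))
    { toFun := fun g => gv g
      map_one' := by
        refine LinearMap.ext fun f => ?_
        funext w
        change ep 1 w * f (w ∘ (1 : Equiv.Perm (Fin n))) = f w
        rw [ep_one, one_mul]
        rfl
      map_mul' := fun g h => by
        refine LinearMap.ext fun f => ?_
        funext w
        change ep (g * h) w * f (w ∘ (g * h : Equiv.Perm (Fin n))) =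
          ep g w * (ep h (w ∘ g) * f ((w ∘ g) ∘ h))
        rw [ep_mul, mul_assoc]
        rfl }

theorem actS_single (D n : ℕ) (g : Equiv.Perm (Fin n)) (a : ℚ) (f : (Fin n → Fin (D + 1)) → ℚ)
    (w : Fin n → Fin (D + 1)) :
    actS D n (MonoidAlgebra.single g a) f w = a * (ep g w * f (w ∘ g)) := by
  unfold actS
  rw [MonoidAlgebra.lift_single]
  rfl

/-- The trace of the signed action on words. -/
def tauS (D n : ℕ) (x : QS n) : ℚ := LinearMap.trace ℚ ((Fin n → Fin (D + 1)) → ℚ) (actS D n x)

end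

end Pool.Agent.Helper91.GP
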