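import Mathlib.Analysis.SpecificLimits.Normed

/-!
# Exponentials beat polynomials
-/

set_option autoImplicit false

namespace Pool.Agent.Helper91.GP

open Filter

theorem eventually_lt' (d D m : ℕ) (hD : d < D) : ∃ N : ℕ, ∀ n ≥ N,
    d ^ n * (n + 1) ^ m < D ^ n := by
  rcases Nat.eq_zero_or_pos d with rfl | hd
  · refine ⟨1, fun n hn => ?_⟩
    rw [zero_pow (by omega), zero_mul]
    exact Nat.pow_pos hD
  · have hd' : (0 : ℝ) < d := by exact_mod_cast hd
    have hD' : (0 : ℝ) < D := by exact_mod_cast hd.trans hD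
    have hdD : (d : ℝ) < D := by exact_mod_cast hD
    set r : ℝ := (d : ℝ) / D with hr
    have hr0 : 0 < r := by positivity
    have hr1 : r < 1 := by
      rw [hr, div_lt_one hD']
      exact hdD
    have h1 := tendsto_pow_const_mul_const_pow_of_abs_lt_one m
      (r := r) (by rw [abs_of_pos hr0]; exact hr1)
    have h2 := h1.comp (tendsto_add_atTop_nat 1)
    have h3 := h2.eventually (gt_mem_nhds hr0)
    obtain ⟨N, hN⟩ := eventually_atTop.mp h3
    refine ⟨N, fun n hn => ?_⟩
    have h4 := hN n hn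
    simp only [Function.comp] at h4
    have h5 : ((n + 1 : ℕ) : ℝ) ^ m * r ^ n < 1 := by
      have h6 : r ^ (n + 1) = r ^ n * r := pow_succ r n
      rw [h6, ← mul_assoc] at h4
      exact lt_of_mul_lt_mul_right (by rw [one_mul]; exact h4) hr0.le
    have h7 : (r : ℝ) ^ n = (d : ℝ) ^ n / D ^ n := by rw [hr, div_pow]
    rw [h7, ← mul_div_assoc, div_lt_one (by positivity)] at h5
    have h8 : ((d ^ n * (n + 1) ^ m : ℕ) : ℝ) < ((D ^ n : ℕ) : ℝ) := by
      push_cast
      push_cast at h5
      linarith [mul_comm (((n : ℝ) + 1) ^ m) ((d : ℝ) ^ n)]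
    exact_mod_cast h8

end Pool.Agent.Helper91.GP
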