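import Pool.Agent.Helper91.GP2.Defs
import Pool.Agent.Helper91.GP.QSEM
import Pool.Agent.Helper91.GP.QRANK
import Mathlib.RingTheory.SimpleModule.Basic

/-!
# Board GP2, package CNT2: the number of idempotents which act on signed words
-/

open CategoryTheory MonoidalCategory Limits BraidedCategory

namespace Pool.Agent.Helper91.GP

open Pool.Agent.TH90.AB Pool.Agent.TH90.Kim Pool.Agent.Helper96.Kim Pool.Agent.Helper96.SP

theorem cntS_of (D n : ℕ)
    (hcen : Module.finrank ℚ (Subalgebra.centralizer ℚ (Set.range (actS D n))) ≤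
      (n + 1) ^ ((D + 1) ^ 2)) :
    ∃ (s : ℕ) (e : Fin s → QS n), (∀ i, e i * e i = e i) ∧
    (∀ i j, i ≠ j → e i * e j = 0) ∧ (∑ i, e i = 1) ∧
    (D + 1) ^ n ≤ {i | actS D n (e i) ≠ 0}.ncard * (n + 1) ^ ((D + 1) ^ 2) := by
  classical
  obtain ⟨s, e, h1, h2, h3, h4⟩ := sem n
  refine ⟨s, e, h1, h2, h3, ?_⟩
  have hsum : ∀ w : (Fin n → Fin (D + 1)) → ℚ, ∑ i, actS D n (e i) w = w := by
    intro w
    rw [← LinearMap.sum_apply, ← map_sum, h3, map_one]
    rfl
  let ψ : ((Fin n → Fin (D + 1)) → ℚ) →ₗ[ℚ] (∀ i : Fin s, LinearMap.range (actS D n (e i))) :=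
    LinearMap.pi fun i => (actS D n (e i)).rangeRestrict
  have hψ : Function.Injective ψ := by
    intro a b hab
    rw [← hsum a, ← hsum b]
    refine Finset.sum_congr rfl fun i _ => ?_
    exact congrArg Subtype.val (congrFun hab i)
  have h5 := LinearMap.finrank_le_finrank_of_injective hψ
  rw [Module.finrank_fintype_fun_eq_card, Fintype.card_fun, Fintype.card_fin, Fintype.card_fin,
    Module.finrank_pi_fintype] at h5
  refine h5.trans ?_
  have h6 : ∀ i, Module.finrank ℚ (LinearMap.range (actS D n (e i))) ≤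
      if actS D n (e i) ≠ 0 then (n + 1) ^ ((D + 1) ^ 2) else 0 := by
    intro i
    split_ifs with h
    · exact (rank_le (actS D n) (e i) (h1 i) (h4 i)).trans hcen
    · rw [not_not] at h
      rw [h, LinearMap.range_zero, finrank_bot]
  refine (Finset.sum_le_sum fun i _ => h6 i).trans ?_
  rw [← Finset.sum_filter, Finset.sum_const, smul_eq_mul]
  refine Nat.mul_le_mul_right _ (le_of_eq ?_)
  rw [← Set.ncard_coe_finset]
  congr 1
  ext i
  simp

end Pool.Agent.Helper91.GP
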