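import Pool.Agent.Helper91.GP2.Core
import Pool.Agent.Helper91.GP2.QCEN2
import Pool.Agent.Helper91.GP2.QCNT2
import Pool.Agent.Helper91.GP.Main

set_option autoImplicit false
set_option linter.unusedSectionVars false

open CategoryTheory MonoidalCategory Limits BraidedCategory

universe u v w

namespace Pool.Agent.Helper91.GP

open Pool.Agent.TH90.AB Pool.Agent.TH90.Kim Pool.Agent.Helper96.Kim Pool.Agent.Helper96.SP

variable {𝒜 : Type u} [Category.{v} 𝒜] [MonoidalCategory 𝒜] [SymmetricCategory 𝒜]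
  [Preadditive 𝒜] [MonoidalPreadditive 𝒜] [Linear ℚ 𝒜] [MonoidalLinear ℚ 𝒜]
  [IsIdempotentComplete 𝒜] [hdual : ∀ X : 𝒜, HasRightDual X]
  {K : Type w} [Field K] [CharZero K] (F : Realisation 𝒜 K)

theorem gapS (hunit : ∀ f : 𝟙_ 𝒜 ⟶ 𝟙_ 𝒜, ∃ q : ℚ, f = q • 𝟙 (𝟙_ 𝒜)) {M : 𝒜} {δ : ℚ}
    (hδ : δ = 1 ∨ δ = -1) (hM : ∀ x, F.par M x = (δ : K) • x) (h : ¬ KimuraFinite M) (n : ℕ) :
    ∃ k, (Module.finrank K (F.V M) + 2) ^ n ≤
      k * (n + 1) ^ ((Module.finrank K (F.V M) + 2) ^ 2) ∧ IsSumOf (T M n) k := by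
  classical
  obtain ⟨φ, hφ⟩ := exists_PA M
  have hδδ : δ * δ = 1 := by rcases hδ with rfl | rfl <;> norm_num
  have hne : rh φ (Module.finrank K (F.V M) + 1) (alt (-δ) _) ≠ 0 := by
    intro h0
    apply h
    have hε : -δ = 1 ∨ -δ = -1 := by
      rcases hδ with rfl | rfl
      · right; rfl
      · left; norm_num
    have h1 := (alt_iff hφ hε _).mpr h0
    rcases hδ with rfl | rfl
    · exact kf_of_even h1
    · rw [neg_neg] at h1
      exact kf_of_odd h1
  have htr := F.tr_scalar hunit hδδ hM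
  have hcore := coreS (Module.finrank K (F.V M)) (fun n => {x : QS n | rh φ n (tw δ x) = 0})
    (by
      intro n x hx a b
      change rh φ n (tw δ (a * x * b)) = 0
      change rh φ n (tw δ x) = 0 at hx
      rw [tw_mul hδ, tw_mul hδ, rh_mul', rh_mul', hx]
      simp)
    (by
      intro n x hx
      exact contr hφ hδ htr n x hx)
    (by
      intro n hn x hx
      exact base F hφ hδ hM hne n hn x hx) n
  obtain ⟨s, e, h1, h2, h3, h4⟩ := cntS_of (Module.finrank K (F.V M) + 1) n (centralizer_leS_of ep_sq _ _)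
  have hs := spl (T M n) s (fun i => rh φ n (tw δ (e i)))
    (by
      intro i
      rw [← rh_mul', ← tw_mul hδ, h1])
    (by
      intro i j hij
      rw [← rh_mul', ← tw_mul hδ, h2 j i (Ne.symm hij), (tw_zero_iff hδ _).mpr rfl, rh_zero'])
    (by
      rw [← rh_sum, ← tw_sum, h3, tw_one, rh_one'])
  refine ⟨_, h4.trans (Nat.mul_le_mul_right _ (Set.ncard_le_ncard ?_ (Set.toFinite _))), hs⟩
  intro i hi h5
  exact hi (hcore (e i) h5)

end Pool.Agent.Helper91.GP
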