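import Pool.Agent.Helper91.GP2.Defs

/-!
# Values of the sign
-/

namespace Pool.Agent.Helper91.GP

theorem ep_sq {n D : ℕ} (g : Equiv.Perm (Fin n)) (w : Fin n → Fin (D + 1)) :
    ep g w * ep g w = 1 := by
  unfold ep
  rw [← Finset.prod_mul_distrib]
  refine Finset.prod_eq_one fun p _ => ?_
  split_ifs <;> norm_num

theorem ep_even {n D : ℕ} (i j : Fin n) (w : Fin n → Fin (D + 1)) (hi : w i ≠ Fin.last D)
    (hj : w j ≠ Fin.last D) : ep (Equiv.swap i j) w = 1 := by
  unfold ep
  refine Finset.prod_eq_one fun p _ => ?_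
  rw [if_neg]
  rintro ⟨h1, h2, h3, h4⟩
  have key : ∀ k, w (Equiv.swap i j k) = Fin.last D → Equiv.swap i j k = k := by
    intro k hk
    refine Equiv.swap_apply_of_ne_of_ne ?_ ?_
    · rintro rfl
      rw [Equiv.swap_apply_left] at hk
      exact hj hk
    · rintro rfl
      rw [Equiv.swap_apply_right] at hk
      exact hi hk
  rw [key _ h2, key _ h3] at h4
  exact lt_asymm h1 h4

namespace QEPVX

theorem odd_lt {n D : ℕ} (i j : Fin n) (hij : i < j) (w : Fin n → Fin (D + 1))
    (hi : w i = Fin.last D) (hj : w j = Fin.last D) : ep (Equiv.swap i j) w = -1 := by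
  unfold ep
  have hne : ∀ k, i < k → k < j → Equiv.swap i j k = k := fun k h1 h2 =>
    Equiv.swap_apply_of_ne_of_ne (ne_of_gt h1) (ne_of_lt h2)
  -- the inversions
  have hinv : ∀ p : Fin n × Fin n, (p.1 < p.2 ∧ w (Equiv.swap i j p.1) = Fin.last D ∧
      w (Equiv.swap i j p.2) = Fin.last D ∧ Equiv.swap i j p.2 < Equiv.swap i j p.1) ↔
      p = (i, j) ∨ (p.1 = i ∧ i < p.2 ∧ p.2 < j ∧ w p.2 = Fin.last D) ∨
        (p.2 = j ∧ i < p.1 ∧ p.1 < j ∧ w p.1 = Fin.last D) := by
    rintro ⟨a, c⟩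
    simp only [Prod.mk.injEq]
    constructor
    · rintro ⟨h1, h2, h3, h4⟩
      by_cases ha : a = i
      · subst ha
        by_cases hc : c = j
        · exact Or.inl ⟨rfl, hc⟩
        · rw [Equiv.swap_apply_of_ne_of_ne (ne_of_gt h1) hc] at h3 h4
          rw [Equiv.swap_apply_left] at h4
          exact Or.inr (Or.inl ⟨rfl, h1, h4, h3⟩)
      · by_cases haj : a = j
        · subst haj
          rw [Equiv.swap_apply_right, Equiv.swap_apply_of_ne_of_ne (ne_of_gt (hij.trans h1))
            (ne_of_gt h1)] at h4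
          exact absurd (hij.trans h1) (lt_asymm h4)
        · rw [Equiv.swap_apply_of_ne_of_ne ha haj] at h2 h4
          by_cases hc : c = j
          · subst hc
            rw [Equiv.swap_apply_right] at h4
            exact Or.inr (Or.inr ⟨rfl, h4, h1, h2⟩)
          · by_cases hci : c = i
            · subst hci
              rw [Equiv.swap_apply_left] at h4
              exact absurd (h1.trans hij) (lt_asymm h4)
            · rw [Equiv.swap_apply_of_ne_of_ne hci hc] at h4
              exact absurd h1 (lt_asymm h4)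
    · rintro (⟨rfl, rfl⟩ | ⟨rfl, h1, h2, h3⟩ | ⟨rfl, h1, h2, h3⟩)
      · rw [Equiv.swap_apply_left, Equiv.swap_apply_right]
        exact ⟨hij, hj, hi, hij⟩
      · rw [Equiv.swap_apply_left, hne c h1 h2]
        exact ⟨h1, hj, h3, h2⟩
      · rw [Equiv.swap_apply_right, hne a h1 h2]
        exact ⟨h2, h3, hi, h1⟩
  rw [Finset.prod_congr rfl fun p _ => by rw [if_congr (hinv p) rfl rfl],
    ← Finset.mul_prod_erase Finset.univ _ (Finset.mem_univ (i, j)), if_pos (Or.inl rfl)]
  let G : Fin n × Fin n → Fin n × Fin n := fun p => if p.1 = i ∧ i < p.2 ∧ p.2 < j then (p.2, j)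
      else if p.2 = j ∧ i < p.1 ∧ p.1 < j then (i, p.1) else p
  have g1 : ∀ a c, (a = i ∧ i < c ∧ c < j) → G (a, c) = (c, j) := fun a c h => if_pos h
  have g2 : ∀ a c, ¬ (a = i ∧ i < c ∧ c < j) → (c = j ∧ i < a ∧ a < j) → G (a, c) = (i, a) :=
    fun a c h h' => (if_neg h).trans (if_pos h')
  have g3 : ∀ a c, ¬ (a = i ∧ i < c ∧ c < j) → ¬ (c = j ∧ i < a ∧ a < j) → G (a, c) = (a, c) :=
    fun a c h h' => (if_neg h).trans (if_neg h')
  have h1 : ∏ p ∈ Finset.univ.erase (i, j), (if p = (i, j) ∨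
      (p.1 = i ∧ i < p.2 ∧ p.2 < j ∧ w p.2 = Fin.last D) ∨
        (p.2 = j ∧ i < p.1 ∧ p.1 < j ∧ w p.1 = Fin.last D) then (-1 : ℚ) else 1) = 1 := by
    refine Finset.prod_involution (fun p _ => G p) ?_ ?_ ?_ ?_
    · rintro ⟨a, c⟩ hp
      have hp' : ¬ (a = i ∧ c = j) := by
        have := (Finset.mem_erase.1 hp).1
        simpa only [ne_eq, Prod.mk.injEq] using this
      by_cases h1 : a = i ∧ i < c ∧ c < j
      · rw [g1 a c h1]
        obtain ⟨rfl, h2, h3⟩ := h1
        have e1 : c ≠ a := ne_of_gt h2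
        have e2 : c ≠ j := ne_of_lt h3
        by_cases h4 : w c = Fin.last D
        · rw [if_pos (Or.inr (Or.inl ⟨rfl, h2, h3, h4⟩)), if_pos (Or.inr (Or.inr ⟨rfl, h2, h3, h4⟩))]
          norm_num
        · rw [if_neg, if_neg]
          · norm_num
          · rintro (h5 | ⟨h5, _⟩ | ⟨_, _, _, h5⟩)
            · exact e1 (congrArg Prod.fst h5)
            · exact e1 h5
            · exact h4 h5
          · rintro (h5 | ⟨_, _, _, h5⟩ | ⟨h5, _⟩)
            · exact e2 (congrArg Prod.snd h5)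
            · exact h4 h5
            · exact e2 h5
      · by_cases h2 : c = j ∧ i < a ∧ a < j
        · rw [g2 a c h1 h2]
          obtain ⟨rfl, h3, h4⟩ := h2
          have e1 : a ≠ i := ne_of_gt h3
          have e2 : a ≠ c := ne_of_lt h4
          by_cases h5 : w a = Fin.last D
          · rw [if_pos (Or.inr (Or.inr ⟨rfl, h3, h4, h5⟩)),
              if_pos (Or.inr (Or.inl ⟨rfl, h3, h4, h5⟩))]
            norm_num
          · rw [if_neg, if_neg]
            · norm_num
            · rintro (h6 | ⟨_, _, _, h6⟩ | ⟨h6, _⟩)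
              · exact e2 (congrArg Prod.snd h6)
              · exact h5 h6
              · exact e2 h6
            · rintro (h6 | ⟨h6, _⟩ | ⟨_, _, _, h6⟩)
              · exact e1 (congrArg Prod.fst h6)
              · exact e1 h6
              · exact h5 h6
        · rw [g3 a c h1 h2, if_neg]
          · norm_num
          · rintro (h3 | ⟨h3, h4, h5, _⟩ | ⟨h3, h4, h5, _⟩)
            · exact hp' ⟨congrArg Prod.fst h3, congrArg Prod.snd h3⟩
            · exact h1 ⟨h3, h4, h5⟩
            · exact h2 ⟨h3, h4, h5⟩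
    · rintro ⟨a, c⟩ hp hne1
      have hp' : ¬ (a = i ∧ c = j) := by
        have := (Finset.mem_erase.1 hp).1
        simpa only [ne_eq, Prod.mk.injEq] using this
      by_cases h1 : a = i ∧ i < c ∧ c < j
      · rw [g1 a c h1]
        intro h2
        exact absurd (congrArg Prod.snd h2 : j = c).symm (ne_of_lt h1.2.2)
      · by_cases h2 : c = j ∧ i < a ∧ a < j
        · rw [g2 a c h1 h2]
          intro h3
          exact absurd (congrArg Prod.fst h3 : i = a).symm (ne_of_gt h2.2.1)
        · exfalso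
          apply hne1
          rw [if_neg]
          rintro (h3 | ⟨h3, h4, h5, _⟩ | ⟨h3, h4, h5, _⟩)
          · exact hp' ⟨congrArg Prod.fst h3, congrArg Prod.snd h3⟩
          · exact h1 ⟨h3, h4, h5⟩
          · exact h2 ⟨h3, h4, h5⟩
    · rintro ⟨a, c⟩ hp
      refine Finset.mem_erase.2 ⟨?_, Finset.mem_univ _⟩
      by_cases h1 : a = i ∧ i < c ∧ c < j
      · rw [g1 a c h1]
        intro h2
        exact absurd (congrArg Prod.fst h2 : c = i) (ne_of_gt h1.2.1)
      · by_cases h2 : c = j ∧ i < a ∧ a < j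
        · rw [g2 a c h1 h2]
          intro h3
          exact absurd (congrArg Prod.snd h3 : a = j) (ne_of_lt h2.2.2)
        · rw [g3 a c h1 h2]
          exact (Finset.mem_erase.1 hp).1
    · rintro ⟨a, c⟩ hp
      by_cases h1 : a = i ∧ i < c ∧ c < j
      · have e1 : ¬ (c = i ∧ i < j ∧ j < j) := fun h => absurd h.1 (ne_of_gt h1.2.1)
        rw [g1 a c h1, g2 c j e1 ⟨rfl, h1.2⟩, h1.1]
      · by_cases h2 : c = j ∧ i < a ∧ a < j
        · rw [g2 a c h1 h2, g1 i a ⟨rfl, h2.2⟩, h2.1]
        · rw [g3 a c h1 h2, g3 a c h1 h2]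
  rw [h1, mul_one]

end QEPVX

theorem ep_odd {n D : ℕ} (i j : Fin n) (hij : i ≠ j) (w : Fin n → Fin (D + 1))
    (hi : w i = Fin.last D) (hj : w j = Fin.last D) : ep (Equiv.swap i j) w = -1 := by
  rcases lt_or_gt_of_ne hij with h | h
  · exact QEPVX.odd_lt i j h w hi hj
  · rw [Equiv.swap_comm]
    exact QEPVX.odd_lt j i h w hj hi

end Pool.Agent.Helper91.GP
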